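import Mathlib
import Pool.Agent.Results.MP_24e13c_co.ChordalNERD

set_option autoImplicit false

open Classical Finset

namespace Pool.Agent.Results.MP_77abd0_co.ChordalCliqueRoots

section Defs
variable {V : Type*} [Fintype V]

/-- `c_k(G)`: the number of `k`-cliques. -/
noncomputable def numCliques (G : SimpleGraph V) (k : ℕ) : ℕ :=
  (univ.filter (fun s : Finset V => G.IsNClique k s)).card

/-- The clique polynomial. -/
noncomputable def cliquePoly (G : SimpleGraph V) : Polynomial ℝ :=
  ∑ k ∈ range (G.cliqueNum + 1), Polynomial.C (numCliques G k : ℝ) * Polynomial.X ^ k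

/-- All complex roots of the clique polynomial are real. -/
def OnlyCliqueRoots (G : SimpleGraph V) : Prop :=
  ∀ z : ℂ, Polynomial.aeval z (cliquePoly G) = 0 → z.im = 0

/-- Every cycle of length at least four has a chord. -/
def IsChordal (G : SimpleGraph V) : Prop :=
  ∀ n : ℕ, 4 ≤ n → ∀ f : SimpleGraph.cycleGraph n →g G, Function.Injective f →
    ∃ i j : Fin n, i ≠ j ∧ ¬ (SimpleGraph.cycleGraph n).Adj i j ∧ G.Adj (f i) (f j)

/-- `l`-connectivity. -/
def IsLConnected (G : SimpleGraph V) (l : ℕ) : Prop :=
  l + 1 ≤ Fintype.card V ∧ ∀ S : Finset V, S.card < l → (G.induce {v | v ∉ S}).Connected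

end Defs

variable {V : Type*} [Fintype V]

/-- Sum over the cliques inside `s`. -/
noncomputable def P (G : SimpleGraph V) (s : Finset V) (x : ℂ) : ℂ :=
  ∑ Q ∈ s.powerset.filter (fun Q : Finset V => G.IsClique (Q : Set V)), x ^ Q.card

def Conn (G : SimpleGraph V) (T : Finset V) : Prop :=
  ∀ a ∈ T, ∀ b ∈ T, Relation.ReflTransGen (fun x y => G.Adj x y ∧ y ∈ T) a b

def Simplicial (G : SimpleGraph V) (s : Finset V) (z : V) : Prop :=
  ∀ a ∈ s, ∀ b ∈ s, G.Adj z a → G.Adj z b → a ≠ b → G.Adj a b

lemma conn_erase {G : SimpleGraph V} {T : Finset V} {z : V} (hz : Simplicial G T z)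
    (hT : Conn G T) : Conn G (T.erase z) := by
  intro a ha b hb
  have haz : a ≠ z := (Finset.mem_erase.mp ha).1
  have haT : a ∈ T := (Finset.mem_erase.mp ha).2
  have key : ∀ c, Relation.ReflTransGen (fun x y => G.Adj x y ∧ y ∈ T) a c →
      c ∈ T ∧ (c ≠ z → Relation.ReflTransGen (fun x y => G.Adj x y ∧ y ∈ T.erase z) a c) ∧
      (c = z → ∃ p ∈ T.erase z, G.Adj z p ∧
        Relation.ReflTransGen (fun x y => G.Adj x y ∧ y ∈ T.erase z) a p) := by
    intro c hc
    induction hc with
    | refl => exact ⟨haT, fun _ => Relation.ReflTransGen.refl, fun h => absurd h haz⟩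
    | @tail c d _ hcd ih =>
      refine ⟨hcd.2, ?_, ?_⟩
      · intro hdz
        have hdE : d ∈ T.erase z := Finset.mem_erase.mpr ⟨hdz, hcd.2⟩
        by_cases hcz : c = z
        · obtain ⟨p, hp, hzp, hap⟩ := ih.2.2 hcz
          by_cases hpd : p = d
          · rw [← hpd]; exact hap
          · have hzd : G.Adj z d := by rw [← hcz]; exact hcd.1
            exact hap.tail ⟨hz p (Finset.mem_erase.mp hp).2 d hcd.2 hzp hzd hpd, hdE⟩
        · exact (ih.2.1 hcz).tail ⟨hcd.1, hdE⟩
      · intro hdz
        have hcz : c ≠ z := by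
          intro h
          have := hcd.1
          rw [h, hdz] at this
          exact G.loopless.irrefl _ this
        refine ⟨c, Finset.mem_erase.mpr ⟨hcz, ih.1⟩, ?_, ih.2.1 hcz⟩
        have := hcd.1
        rw [hdz] at this
        exact this.symm
  exact (key b (hT a haT b (Finset.mem_erase.mp hb).2)).2.1 (Finset.mem_erase.mp hb).1

lemma P_erase {G : SimpleGraph V} {s : Finset V} {z : V} (hzs : z ∈ s) (hz : Simplicial G s z)
    (x : ℂ) : P G s x = P G (s.erase z) x + x * (1 + x) ^ (s.filter (fun a => G.Adj z a)).card := by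
  set N := s.filter (fun a => G.Adj z a) with hN
  have hzN : z ∉ N := by
    intro h
    exact G.loopless.irrefl _ (Finset.mem_filter.mp h).2
  have h1 : s.powerset.filter (fun Q : Finset V => G.IsClique (Q : Set V)) =
      ((s.erase z).powerset.filter (fun Q : Finset V => G.IsClique (Q : Set V))) ∪
        N.powerset.image (fun Q : Finset V => insert z Q) := by
    ext Q
    simp only [Finset.mem_filter, Finset.mem_powerset, Finset.mem_union, Finset.mem_image]
    constructor
    · rintro ⟨hQs, hQc⟩
      by_cases hzQ : z ∈ Q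
      · right
        refine ⟨Q.erase z, ?_, Finset.insert_erase hzQ⟩
        intro a ha
        have ha' := Finset.mem_erase.mp ha
        exact Finset.mem_filter.mpr ⟨hQs ha'.2, hQc hzQ ha'.2 ha'.1.symm⟩
      · left
        exact ⟨Finset.subset_erase.mpr ⟨hQs, hzQ⟩, hQc⟩
    · rintro (⟨hQs, hQc⟩ | ⟨R, hR, rfl⟩)
      · exact ⟨hQs.trans (Finset.erase_subset _ _), hQc⟩
      · refine ⟨?_, ?_⟩
        · intro a ha
          rcases Finset.mem_insert.mp ha with rfl | ha
          · exact hzs
          · exact (Finset.mem_filter.mp (hR ha)).1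
        · intro a ha b hb hab
          rcases Finset.mem_insert.mp (Finset.mem_coe.mp ha) with rfl | haR
          · rcases Finset.mem_insert.mp (Finset.mem_coe.mp hb) with rfl | hbR
            · exact absurd rfl hab
            · exact (Finset.mem_filter.mp (hR hbR)).2
          · rcases Finset.mem_insert.mp (Finset.mem_coe.mp hb) with rfl | hbR
            · exact (Finset.mem_filter.mp (hR haR)).2.symm
            · have h2 := Finset.mem_filter.mp (hR haR)
              have h3 := Finset.mem_filter.mp (hR hbR)
              exact hz a h2.1 b h3.1 h2.2 h3.2 hab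
  have hdisj : Disjoint ((s.erase z).powerset.filter (fun Q : Finset V => G.IsClique (Q : Set V)))
      (N.powerset.image (fun Q : Finset V => insert z Q)) := by
    rw [Finset.disjoint_left]
    intro Q hQ hQ'
    obtain ⟨R, _, rfl⟩ := Finset.mem_image.mp hQ'
    have h2 := Finset.mem_powerset.mp (Finset.mem_filter.mp hQ).1
    exact (Finset.mem_erase.mp (h2 (Finset.mem_insert_self z R))).1 rfl
  unfold P
  rw [h1, Finset.sum_union hdisj]
  congr 1
  rw [Finset.sum_image]
  · have h2 := Finset.sum_pow_mul_eq_add_pow x (1 : ℂ) N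
    rw [add_comm 1 x, ← h2, Finset.mul_sum]
    refine Finset.sum_congr rfl ?_
    intro Q hQ
    have : z ∉ Q := fun h => hzN (Finset.mem_powerset.mp hQ h)
    rw [Finset.card_insert_of_notMem this]
    ring
  · intro Q hQ R hR h
    have h1 : z ∉ Q := fun h => hzN (Finset.mem_powerset.mp hQ h)
    have h2 : z ∉ R := fun h => hzN (Finset.mem_powerset.mp hR h)
    have h' : insert z Q = insert z R := h
    calc Q = (insert z Q).erase z := (Finset.erase_insert h1).symm
      _ = (insert z R).erase z := by rw [h']
      _ = R := Finset.erase_insert h2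

lemma exists_simp {G : SimpleGraph V} (hG : IsChordal G) (s : Finset V) (hs : s.Nonempty) :
    ∃ z ∈ s, Simplicial G s z := by
  have hG' : Pool.Agent.Results.MP_24e13c_co.ChordalNERD.IsChordal G := by
    intro n hn
    refine ⟨fun e => ?_⟩
    obtain ⟨i, j, _, h2, h3⟩ := hG n hn e.toHom e.injective
    exact h2 (e.map_adj_iff.mp h3)
  by_cases h : ∃ x ∈ s, ∃ y ∈ s, y ≠ x ∧ ¬ G.Adj x y
  · obtain ⟨x, hx, y, hy, hyx, hxy⟩ := h
    obtain ⟨z, hz1, _, _, hz2⟩ :=
      Pool.Agent.Results.MP_24e13c_co.ChordalNERD.exists_simplicial hG' s.card s le_rfl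
        x hx y hy hyx hxy
    exact ⟨z, hz1, hz2⟩
  · obtain ⟨z, hz⟩ := hs
    refine ⟨z, hz, ?_⟩
    intro a ha b hb _ _ hab
    by_contra hnab
    exact h ⟨a, ha, b, hb, hab.symm, hnab⟩

lemma main {G : SimpleGraph V} (hG : IsChordal G) {l : ℕ} (hfree : G.CliqueFree (l + 3)) :
    ∀ (n : ℕ) (s : Finset V), s.card = n →
      (∀ S : Finset V, S.card < l → Conn G (s \ S)) →
      (n ≤ l → ∀ x, P G s x = (1 + x) ^ n) ∧
      (∀ N : ℕ, n = l + N → 1 ≤ N → ∃ b : ℕ, b + 1 ≤ N ∧
        ∀ x, P G s x = (1 + x) ^ l * (1 + N * x + b * x ^ 2)) := by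
  intro n
  induction n with
  | zero =>
    intro s hs _
    rw [Finset.card_eq_zero] at hs
    subst hs
    refine ⟨?_, ?_⟩
    · intro _ x
      unfold P
      rw [Finset.powerset_empty, Finset.filter_singleton]
      simp
    · intro N h1 h2
      omega
  | succ n ih =>
    intro s hs hLC
    have hne : s.Nonempty := by rw [← Finset.card_pos]; omega
    obtain ⟨z, hzs, hz⟩ := exists_simp hG s hne
    have hcard' : (s.erase z).card = n := by rw [Finset.card_erase_of_mem hzs]; omega
    have hLC' : ∀ S : Finset V, S.card < l → Conn G ((s.erase z) \ S) := by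
      intro S hS
      have h1 : (s.erase z) \ S = (s \ S).erase z := by
        ext a; simp only [Finset.mem_sdiff, Finset.mem_erase]; tauto
      rw [h1]
      refine conn_erase ?_ (hLC S hS)
      intro a ha b hb
      exact hz a (Finset.mem_sdiff.mp ha).1 b (Finset.mem_sdiff.mp hb).1
    obtain ⟨ih1, ih2⟩ := ih (s.erase z) hcard' hLC'
    set N0 := s.filter (fun a => G.Adj z a) with hN0
    have hd1 : N0.card ≤ n := by
      have : N0 ⊆ s.erase z := by
        intro a ha
        have := Finset.mem_filter.mp ha
        refine Finset.mem_erase.mpr ⟨?_, this.1⟩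
        rintro rfl
        exact G.loopless.irrefl _ this.2
      calc N0.card ≤ (s.erase z).card := Finset.card_le_card this
        _ = n := hcard'
    have hd2 : N0.card ≤ l + 1 := by
      by_contra hlt
      have hcl : G.IsNClique (N0.card + 1) (insert z N0) := by
        refine ⟨?_, ?_⟩
        · intro a ha b hb hab
          rcases Finset.mem_insert.mp (Finset.mem_coe.mp ha) with rfl | haR
          · rcases Finset.mem_insert.mp (Finset.mem_coe.mp hb) with rfl | hbR
            · exact absurd rfl hab
            · exact (Finset.mem_filter.mp hbR).2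
          · rcases Finset.mem_insert.mp (Finset.mem_coe.mp hb) with rfl | hbR
            · exact (Finset.mem_filter.mp haR).2.symm
            · have h2 := Finset.mem_filter.mp haR
              have h3 := Finset.mem_filter.mp hbR
              exact hz a h2.1 b h3.1 h2.2 h3.2 hab
        · rw [Finset.card_insert_of_notMem]
          intro h
          exact G.loopless.irrefl _ (Finset.mem_filter.mp h).2
      exact (hfree.mono (by omega)) _ hcl
    have hd3 : l ≤ N0.card ∨ N0.card = n := by
      by_contra hno
      have hno := not_or.mp hno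
      have hlt : N0.card < l := not_le.mp hno.1
      have hconn := hLC N0 hlt
      apply hno.2
      have hsub : s.erase z ⊆ N0 := by
        intro b hb
        by_contra hbN
        have hb' := Finset.mem_erase.mp hb
        have hzN : z ∉ N0 := by
          intro h
          exact G.loopless.irrefl _ (Finset.mem_filter.mp h).2
        have h1 := hconn z (Finset.mem_sdiff.mpr ⟨hzs, hzN⟩) b (Finset.mem_sdiff.mpr ⟨hb'.2, hbN⟩)
        rcases Relation.ReflTransGen.cases_head h1 with h2 | ⟨c, hc, _⟩
        · exact hb'.1 h2.symm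
        · have := Finset.mem_sdiff.mp hc.2
          exact this.2 (Finset.mem_filter.mpr ⟨this.1, hc.1⟩)
      have := Finset.card_le_card hsub
      omega
    have hP := fun x => P_erase (x := x) hzs hz
    refine ⟨?_, ?_⟩
    · intro hn x
      have hd : N0.card = n := by omega
      rw [hP x, ih1 (by omega) x, ← hN0, hd]
      ring
    · intro N hN hN1
      rcases Nat.lt_or_ge 1 N with h2 | h2
      · obtain ⟨b, hb, hbP⟩ := ih2 (N - 1) (by omega) (by omega)
        obtain ⟨M, rfl⟩ : ∃ M, N = M + 1 := ⟨N - 1, by omega⟩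
        have hd : N0.card = l ∨ N0.card = l + 1 := by omega
        rcases hd with hd | hd
        · refine ⟨b, by omega, ?_⟩
          intro x
          rw [hP x, hbP x, ← hN0, hd]
          simp only [Nat.add_sub_cancel]
          push_cast
          ring
        · refine ⟨b + 1, by omega, ?_⟩
          intro x
          rw [hP x, hbP x, ← hN0, hd]
          simp only [Nat.add_sub_cancel]
          push_cast
          ring
      · have hN' : N = 1 := by omega
        subst hN'
        have hnl : n = l := by omega
        have hd : N0.card = l := by omega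
        refine ⟨0, by omega, ?_⟩
        intro x
        rw [hP x, ih1 (by omega) x, ← hN0, hd, hnl]
        push_cast
        ring

lemma conn_of_connected {G : SimpleGraph V} {S : Finset V}
    (h : (G.induce {v | v ∉ S}).Connected) : Conn G (univ \ S) := by
  intro a ha b hb
  have ha' : a ∉ S := (Finset.mem_sdiff.mp ha).2
  have hb' : b ∉ S := (Finset.mem_sdiff.mp hb).2
  have h1 := h.preconnected ⟨a, ha'⟩ ⟨b, hb'⟩
  rw [SimpleGraph.reachable_iff_reflTransGen] at h1
  have key : ∀ c : {v | v ∉ S}, Relation.ReflTransGen (G.induce {v | v ∉ S}).Adj ⟨a, ha'⟩ c →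
      Relation.ReflTransGen (fun x y => G.Adj x y ∧ y ∈ univ \ S) a c.1 := by
    intro c hc
    induction hc with
    | refl => exact Relation.ReflTransGen.refl
    | @tail c d _ hcd ih =>
      exact ih.tail ⟨hcd, Finset.mem_sdiff.mpr ⟨Finset.mem_univ _, d.2⟩⟩
  exact key _ h1

lemma aeval_cliquePoly (G : SimpleGraph V) (z : ℂ) :
    Polynomial.aeval z (cliquePoly G) = P G univ z := by
  unfold cliquePoly P
  rw [map_sum]
  have hmaps : ∀ Q ∈ (univ : Finset V).powerset.filter (fun Q : Finset V => G.IsClique (Q : Set V)),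
      Q.card ∈ range (G.cliqueNum + 1) := by
    intro Q hQ
    have := (Finset.mem_filter.mp hQ).2.card_le_cliqueNum
    exact Finset.mem_range.mpr (Nat.lt_succ_of_le this)
  rw [← Finset.sum_fiberwise_of_maps_to hmaps]
  refine Finset.sum_congr rfl ?_
  intro k _
  rw [map_mul, Polynomial.aeval_C, map_pow, Polynomial.aeval_X]
  have : ∀ Q ∈ ((univ : Finset V).powerset.filter (fun Q : Finset V => G.IsClique (Q : Set V))).filter
      (fun Q => Q.card = k), z ^ Q.card = z ^ k := by
    intro Q hQ
    rw [(Finset.mem_filter.mp hQ).2]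
  rw [Finset.sum_congr rfl this, Finset.sum_const, nsmul_eq_mul]
  congr 1
  have h2 : (((univ : Finset V).powerset.filter (fun Q : Finset V => G.IsClique (Q : Set V))).filter
      (fun Q => Q.card = k)) = univ.filter (fun s : Finset V => G.IsNClique k s) := by
    ext Q
    simp [SimpleGraph.isNClique_iff]
  rw [h2]
  unfold numCliques
  simp

lemma real_of_sq {w : ℂ} {D : ℝ} (hD : 0 ≤ D) (h : w ^ 2 = (D : ℂ)) : w.im = 0 := by
  have h1 := congrArg Complex.re h
  have h2 := congrArg Complex.im h
  rw [sq] at h1 h2
  simp only [Complex.mul_re, Complex.mul_im, Complex.ofReal_re, Complex.ofReal_im] at h1 h2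
  by_contra hne
  have h3 : w.re = 0 := by
    have : w.re * w.im = 0 := by linarith
    rcases mul_eq_zero.mp this with h | h
    · exact h
    · exact absurd h hne
  rw [h3] at h1
  have : 0 < w.im * w.im := mul_self_pos.mpr hne
  nlinarith

/-- Every `l`-connected `K_{l+3}`-free chordal graph has only clique roots. -/
theorem result {V : Type*} [Fintype V] (G : SimpleGraph V) (l : ℕ) (hconn : IsLConnected G l)
    (hG : IsChordal G) (hfree : G.CliqueFree (l + 3)) : OnlyCliqueRoots G := by
  intro z hz
  rw [aeval_cliquePoly] at hz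
  have hcard := hconn.1
  obtain ⟨b, hb, hP⟩ := (main hG hfree (Fintype.card V) univ Finset.card_univ
    (fun S hS => conn_of_connected (hconn.2 S hS))).2 (Fintype.card V - l) (by omega) (by omega)
  set N := Fintype.card V - l with hN
  rw [hP z] at hz
  rcases mul_eq_zero.mp hz with h | h
  · have h1 : 1 + z = 0 := by
      by_contra hne
      exact pow_ne_zero _ hne h
    have : z = -1 := by linear_combination h1
    rw [this]; simp
  · have hsq : (2 * (b : ℂ) * z + N) ^ 2 = (((N : ℝ) ^ 2 - 4 * b : ℝ) : ℂ) := by
      push_cast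
      linear_combination (4 * (b : ℂ)) * h
    have hD : (0 : ℝ) ≤ (N : ℝ) ^ 2 - 4 * b := by
      have : ((b : ℝ) + 1) ≤ N := by exact_mod_cast hb
      nlinarith [sq_nonneg ((N : ℝ) - 2)]
    have him := real_of_sq hD hsq
    by_cases hb0 : b = 0
    · subst hb0
      have hN0 : (N : ℂ) ≠ 0 := by
        have : N ≠ 0 := by omega
        exact_mod_cast this
      have h3 : (N : ℂ) * z = -1 := by
        simp at h
        linear_combination h
      have h4 := congrArg Complex.im h3
      simp at h4
      rcases h4 with h4 | h4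
      · exact absurd (by exact_mod_cast h4) hN0
      · exact h4
    · simp at him
      rcases him with h4 | h4
      · exact absurd h4 hb0
      · exact h4

end Pool.Agent.Results.MP_77abd0_co.ChordalCliqueRoots
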